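import Pool.Agent.Helper87.TB.St

/-!
# Project TB, module PA: theorem (A)
-/

set_option autoImplicit false

noncomputable section

namespace Pool.Agent.Helper15.TB

open Finset Pool.Agent.Helper87.TB
open scoped Classical

theorem hammingNorm_ind {n : ℕ} (J : Finset (Fin n)) :
    hammingNorm (Pool.Agent.Helper87.TB.ind J : W n) = J.card := by
  unfold hammingNorm
  congr 1
  ext i
  unfold Pool.Agent.Helper87.TB.ind
  by_cases hi : i ∈ J <;> simp [hi]

theorem ind_inj {n : ℕ} {J K : Finset (Fin n)}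
    (h : (Pool.Agent.Helper87.TB.ind J : W n) = Pool.Agent.Helper87.TB.ind K) : J = K := by
  ext i
  have h1 := congrFun h i
  unfold Pool.Agent.Helper87.TB.ind at h1
  by_cases hi : i ∈ J <;> by_cases hk : i ∈ K <;> simp [hi, hk] at h1 ⊢

theorem choose_le_ball (n r : ℕ) :
    n.choose r ≤ (univ.filter (fun x : W n => hammingNorm x ≤ r)).card := by
  have h1 : (powersetCard r (univ : Finset (Fin n))).card = n.choose r := by
    rw [card_powersetCard, card_univ, Fintype.card_fin]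
  rw [← h1]
  refine card_le_card_of_injOn (fun J => Pool.Agent.Helper87.TB.ind J) ?_ ?_
  · intro J hJ
    have hJ' := (mem_powersetCard.1 (mem_coe.1 hJ)).2
    refine mem_coe.2 (mem_filter.2 ⟨mem_univ _, ?_⟩)
    rw [hammingNorm_ind, hJ']
  · intro J _ K _ h
    exact ind_inj h

theorem pow_le_choose (n r : ℕ) (h : 2 * r ≤ n) :
    (n : ℝ) ^ r ≤ (2 : ℝ) ^ r * (r.factorial : ℝ) * (n.choose r : ℝ) := by
  have h1 := Nat.pow_sub_le_descFactorial n r
  rw [Nat.descFactorial_eq_factorial_mul_choose] at h1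
  have h2 : n ^ r ≤ (2 * (n + 1 - r)) ^ r := Nat.pow_le_pow_left (by omega) r
  rw [mul_pow] at h2
  have h3 : n ^ r ≤ 2 ^ r * (r.factorial * n.choose r) :=
    h2.trans (Nat.mul_le_mul_left _ h1)
  have h4 : ((n ^ r : ℕ) : ℝ) ≤ ((2 ^ r * (r.factorial * n.choose r) : ℕ) : ℝ) := by
    exact_mod_cast h3
  push_cast at h4
  linarith

theorem cov_zero {n : ℕ} {V : Submodule (ZMod 2) (W n)} (h : Cov n 0 V) : V = ⊤ := by
  rw [eq_top_iff]
  intro y _
  obtain ⟨v, hv, h1⟩ := h y
  have h2 : y - v = 0 := by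
    rw [← hammingNorm_eq_zero]
    omega
  rw [sub_eq_zero] at h2
  rw [h2]
  exact hv

theorem card_pos_V {n : ℕ} (V : Submodule (ZMod 2) (W n)) : 0 < Nat.card V :=
  Nat.card_pos

theorem aPA (hCT : StCT) : StPA := by
  intro r M ε hε
  rcases Nat.eq_zero_or_pos r with rfl | hr
  · refine ⟨1, 0, fun n _ V hV hd => ?_⟩
    have hT := cov_zero hV
    have hcard : Nat.card V = 2 ^ n := by
      rw [hT]
      have h1 : Nat.card (⊤ : Submodule (ZMod 2) (W n)) = Nat.card (W n) :=
        Nat.card_congr (Equiv.Set.univ (W n))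
      rw [h1, Nat.card_eq_fintype_card]
      simp [W]
    have hb := choose_le_ball n 0
    rw [Nat.choose_zero_right] at hb
    have hb' : (1 : ℝ) ≤ (((univ.filter (fun x : W n => hammingNorm x ≤ 0)).card : ℕ) : ℝ) := by
      exact_mod_cast hb
    have hM : 1 ≤ M := by
      refine le_trans ?_ hd
      unfold Pool.Agent.Helper87.TB.dens
      rw [hcard]
      push_cast
      rw [mul_div_assoc, mul_comm, div_mul_cancel₀ _ (by positivity)]
      exact hb'
    have hp : 1 ≤ (poorSets V 1 0).card := by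
      refine card_pos.2 ⟨∅, ?_⟩
      unfold poorSets
      refine mem_filter.2 ⟨mem_univ _, card_empty, ?_⟩
      intro J hJ hne
      exfalso
      exact hne.ne_empty (subset_empty.1 hJ)
    have hp' : (1 : ℝ) ≤ ((poorSets V 1 0).card : ℝ) := by exact_mod_cast hp
    rw [Nat.choose_zero_right]
    push_cast
    nlinarith
  · obtain ⟨K, hK⟩ : ∃ K : ℝ, K = (2 : ℝ) ^ r * (r.factorial : ℝ) := ⟨_, rfl⟩
    obtain ⟨T, hT⟩ : ∃ T : ℝ, T = 2 * |M| * r * K / ε := ⟨_, rfl⟩
    refine ⟨⌈T⌉₊ + 1, max (2 * r) (⌈T⌉₊ + 1), fun n hn V hV hd => ?_⟩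
    have hn1 : 2 * r ≤ n := (le_max_left _ _).trans hn
    have hn2 : ⌈T⌉₊ + 1 ≤ n := (le_max_right _ _).trans hn
    obtain ⟨ω, hω⟩ : ∃ ω : ℕ, ω = ⌈T⌉₊ + 1 := ⟨_, rfl⟩
    rw [← hω] at hn2 ⊢
    have hωT : T ≤ (ω : ℝ) := by
      rw [hω]
      push_cast
      linarith [Nat.le_ceil T]
    have hnT : T ≤ (n : ℝ) := hωT.trans (by exact_mod_cast hn2)
    have hω0 : (0 : ℝ) < ω := by
      rw [hω]
      positivity
    have hn0 : (0 : ℝ) < n := by
      have : 0 < n := by omega
      exact_mod_cast this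
    have hA : (0 : ℝ) < (Nat.card V : ℝ) := by exact_mod_cast card_pos_V V
    have hb := choose_le_ball n r
    have hb' : ((n.choose r : ℕ) : ℝ) ≤
        (((univ.filter (fun x : W n => hammingNorm x ≤ r)).card : ℕ) : ℝ) := by
      exact_mod_cast hb
    have hC0 : (0 : ℝ) < (n.choose r : ℝ) := by
      have : 0 < n.choose r := Nat.choose_pos (by omega)
      exact_mod_cast this
    unfold Pool.Agent.Helper87.TB.dens at hd
    rw [div_le_iff₀ (by positivity)] at hd
    generalize (((univ.filter (fun x : W n => hammingNorm x ≤ r)).card : ℕ) : ℝ) = b at hb' hd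
    have h2n : (0 : ℝ) < (2 : ℝ) ^ n := by positivity
    have hM : 0 < M := by
      have h1 : (0 : ℝ) < (Nat.card V : ℝ) * b := mul_pos hA (hC0.trans_le hb')
      have h2 : 0 < M * (2 : ℝ) ^ n := h1.trans_le hd
      by_contra hc
      push Not at hc
      nlinarith
    have hct := hCT n r ω V (by omega) hr hV
    have hct' : (ω : ℝ) * (2 : ℝ) ^ n ≤ (Nat.card V : ℝ) *
        (ω * ((poorSets V ω r).card : ℝ) + r * (n : ℝ) ^ r + ω * (r * (n : ℝ) ^ (r - 1))) := by
      exact_mod_cast hct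
    generalize ((poorSets V ω r).card : ℝ) = p at hct' ⊢
    obtain ⟨C, hC⟩ : ∃ C : ℝ, C = (n.choose r : ℝ) := ⟨_, rfl⟩
    rw [← hC] at hb' hC0 ⊢
    have hpow : (n : ℝ) ^ r ≤ K * C := by
      rw [hK, hC]
      exact pow_le_choose n r hn1
    have hpow1 : (n : ℝ) * (n : ℝ) ^ (r - 1) = (n : ℝ) ^ r := by
      rw [← pow_succ']
      congr 1
      omega
    have hTe : T * ε = 2 * M * r * K := by
      rw [hT, abs_of_pos hM, div_mul_cancel₀ _ hε.ne']
    -- the main inequality
    have h1 : (ω : ℝ) * C ≤ M * (ω * p + r * (n : ℝ) ^ r + ω * (r * (n : ℝ) ^ (r - 1))) := by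
      have h2 : (Nat.card V : ℝ) * (ω * C) ≤ (Nat.card V : ℝ) *
          (M * (ω * p + r * (n : ℝ) ^ r + ω * (r * (n : ℝ) ^ (r - 1)))) := by
        calc (Nat.card V : ℝ) * (ω * C) = ω * ((Nat.card V : ℝ) * C) := by ring
          _ ≤ ω * ((Nat.card V : ℝ) * b) :=
              mul_le_mul_of_nonneg_left (mul_le_mul_of_nonneg_left hb' hA.le) hω0.le
          _ ≤ ω * (M * (2 : ℝ) ^ n) := mul_le_mul_of_nonneg_left hd hω0.le
          _ = M * (ω * (2 : ℝ) ^ n) := by ring
          _ ≤ M * ((Nat.card V : ℝ) *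
              (ω * p + r * (n : ℝ) ^ r + ω * (r * (n : ℝ) ^ (r - 1)))) :=
              mul_le_mul_of_nonneg_left hct' hM.le
          _ = _ := by ring
      exact le_of_mul_le_mul_left h2 hA
    have hrR : (0 : ℝ) ≤ r := Nat.cast_nonneg r
    have hMr : 0 ≤ M * r := mul_nonneg hM.le hrR
    -- first error
    have e1 : M * (r * (n : ℝ) ^ r) ≤ ω * (ε / 2 * C) := by
      have h2 : M * (r * (n : ℝ) ^ r) ≤ M * r * (K * C) := by
        rw [← mul_assoc]
        exact mul_le_mul_of_nonneg_left hpow hMr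
      have h3 : T * (ε * C) ≤ ω * (ε * C) :=
        mul_le_mul_of_nonneg_right hωT (by positivity)
      have h4 : T * (ε * C) = 2 * M * r * K * C := by rw [← hTe]; ring
      nlinarith
    -- second error
    have e2 : M * (r * (n : ℝ) ^ (r - 1)) ≤ ε / 2 * C := by
      have h2 : M * (r * (n : ℝ) ^ r) ≤ M * r * (K * C) := by
        rw [← mul_assoc]
        exact mul_le_mul_of_nonneg_left hpow hMr
      have h3 : T * (ε * C) ≤ n * (ε * C) :=
        mul_le_mul_of_nonneg_right hnT (by positivity)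
      have h4 : T * (ε * C) = 2 * M * r * K * C := by rw [← hTe]; ring
      have h5 : (n : ℝ) * (M * (r * (n : ℝ) ^ (r - 1))) ≤ n * (ε / 2 * C) := by
        have h6 : (n : ℝ) * (M * (r * (n : ℝ) ^ (r - 1))) = M * (r * (n : ℝ) ^ r) := by
          rw [← hpow1]; ring
        rw [h6]
        nlinarith
      exact le_of_mul_le_mul_left h5 hn0
    have h7 : (ω : ℝ) * ((1 - ε) * C) ≤ ω * (M * p) := by
      have h8 : (ω : ℝ) * (M * (r * (n : ℝ) ^ (r - 1))) ≤ ω * (ε / 2 * C) :=
        mul_le_mul_of_nonneg_left e2 hω0.le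
      nlinarith
    exact le_of_mul_le_mul_left h7 hω0

end Pool.Agent.Helper15.TB

end
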